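import Pool.Agent.Q95.CQ.Main

/-!
# The case `m = 1`
-/

set_option autoImplicit false

open Finset

namespace Pool.Agent.Q95.CQ

variable {F : Type*} [Field F]

/-- `[n]` -/
def qn (q : F) (n : ℕ) : F := ∑ i ∈ range n, q ^ i

theorem Gen.one_sub {q : F} (h : Gen q) : (1 : F) - q ≠ 0 := by
  have := h.sub_ne (show 0 < 1 by norm_num)
  rwa [pow_one] at this

theorem Gen.qn_eq {q : F} (h : Gen q) (n : ℕ) : qn q n = (1 - q ^ n) / (1 - q) := by
  rw [eq_div_iff h.one_sub]
  unfold qn
  have := geom_sum_mul q n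
  linear_combination -this

theorem qn_zero (q : F) : qn q 0 = 0 := by simp [qn]

theorem qn_mem {q : F} (R : Subsemiring F) (hq : q ∈ R) (n : ℕ) : qn q n ∈ R :=
  R.sum_mem fun _ _ => R.pow_mem hq _

/-- `[k]² / q^k` -/
noncomputable def xx (q : F) (k : ℕ) : F := qn q k ^ 2 / q ^ k

theorem xx_mem {q : F} (R : Subsemiring F) (hq : q ∈ R) (hq' : q⁻¹ ∈ R) (k : ℕ) :
    xx q k ∈ R := by
  unfold xx
  rw [div_eq_mul_inv, ← inv_pow]
  exact R.mul_mem (R.pow_mem (qn_mem R hq k) _) (R.pow_mem hq' _)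

theorem Gen.xx_sub {q : F} (h : Gen q) (k d : ℕ) :
    xx q (k + d) - xx q k = qn q d * qn q (k + d + k) / q ^ (k + d) := by
  unfold xx
  rw [h.qn_eq, h.qn_eq, h.qn_eq, h.qn_eq]
  have h1 := h.one_sub
  have h2 : q ^ k ≠ 0 := pow_ne_zero _ h.ne
  have h3 : q ^ (k + d) ≠ 0 := pow_ne_zero _ h.ne
  rw [pow_add q (k + d) k, pow_add q k d]
  have h4 : q ^ d ≠ 0 := pow_ne_zero _ h.ne
  field_simp
  ring

theorem Gen.u_red {q : F} (h : Gen q) {k n : ℕ} (hk : k ≤ n) :
    (xx q (n + 1) - xx q k) * u q k (n + 1) = u q k n / (q ^ (n + 1) * (1 - q) ^ 2) := by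
  obtain ⟨d, rfl⟩ : ∃ d, n = k + d := ⟨n - k, by omega⟩
  rw [show k + d + 1 = k + (d + 1) by ring, h.xx_sub, u_of_le q (Nat.le_add_right _ _),
    u_of_le q (Nat.le_add_right _ _), show k + (d + 1) - k = d + 1 by omega,
    show k + d - k = d by omega, h.qn_eq, h.qn_eq,
    show k + (d + 1) + k = (k + d + k) + 1 by ring, qp_succ q (k + d + k), qp_succ q d]
  have h1 := h.one_sub
  have h2 := h.sub_ne (Nat.succ_pos d)
  have h3 := h.sub_ne (Nat.succ_pos (k + d + k))
  have h4 := h.qp_ne d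
  have h5 := h.qp_ne (k + d + k)
  have h6 : q ^ (k + (d + 1)) ≠ 0 := pow_ne_zero _ h.ne
  field_simp

/-- Newton basis -/
noncomputable def Nw (q : F) (a s k : ℕ) : F := ∏ i ∈ range s, (xx q k - xx q (a + i))

theorem Nw_succ (q : F) (a s k : ℕ) : Nw q a (s + 1) k = Nw q a s k * (xx q k - xx q (a + s)) := by
  unfold Nw; rw [prod_range_succ]

/-- `[s]!` -/
def fac (q : F) (s : ℕ) : F := ∏ i ∈ range s, qn q (i + 1)

theorem fac_succ (q : F) (s : ℕ) : fac q (s + 1) = fac q s * qn q (s + 1) := by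
  unfold fac; rw [prod_range_succ]

theorem Gen.qp_eq {q : F} (h : Gen q) (s : ℕ) : qp q s = (1 - q) ^ s * fac q s := by
  induction s with
  | zero => simp [qp, fac]
  | succ s ih =>
    rw [qp_succ, fac_succ, ih, h.qn_eq]
    have := h.one_sub
    field_simp
    ring

/-- closed form of the sum over `k` of a weight times an element of the Newton basis -/
theorem Gen.newton {q : F} (h : Gen q) (a : ℕ) (Φ : ℕ → F) (e : ℕ → ℕ → F)
    (h0 : ∀ n, a ≤ n → ∑ k ∈ Ico a (n + 1), Φ k * u q k n =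
      e 0 n * (1 - q ^ (n + a)) / (qp q (n - a) * qp q (n + a)))
    (hz : a = 0 → Φ 0 = 0)
    (he : ∀ s n, a + s ≤ n → (1 - q ^ (n + 1 + a + s)) * e s (n + 1) -
      (1 - q ^ (n + a)) * e s n = (1 - q ^ (s + 1)) * q ^ (n + 1) * e (s + 1) (n + 1)) (s : ℕ) :
    ∀ n, ∑ k ∈ Ico a (n + 1), Φ k * Nw q a s k * u q k n =
      if a + s ≤ n then fac q s / (1 - q) ^ s * e s n * (1 - q ^ (n + a)) /
        (qp q (n - (a + s)) * qp q (n + a)) else 0 := by
  induction s with
  | zero =>
    intro n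
    simp only [Nw, range_zero, prod_empty, mul_one, add_zero, fac, pow_zero, div_one, one_mul]
    split_ifs with hn
    · exact h0 n hn
    · rw [Ico_eq_empty (by omega), sum_empty]
  | succ s ih =>
    intro n
    rcases n with _ | n
    · rw [if_neg (by omega)]
      rcases Nat.eq_zero_or_pos a with rfl | ha
      · rw [Nat.Ico_succ_singleton, sum_singleton, hz rfl]; ring
      · rw [Ico_eq_empty (by omega), sum_empty]
    · have key : ∑ k ∈ Ico a (n + 1 + 1), Φ k * Nw q a (s + 1) k * u q k (n + 1) =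
          (xx q (n + 1) - xx q (a + s)) *
            (∑ k ∈ Ico a (n + 1 + 1), Φ k * Nw q a s k * u q k (n + 1)) -
          (∑ k ∈ Ico a (n + 1), Φ k * Nw q a s k * u q k n) / (q ^ (n + 1) * (1 - q) ^ 2) := by
        have e1 : ∑ k ∈ Ico a (n + 1 + 1), Φ k * Nw q a s k *
            ((xx q (n + 1) - xx q k) * u q k (n + 1)) =
            (∑ k ∈ Ico a (n + 1), Φ k * Nw q a s k * u q k n) / (q ^ (n + 1) * (1 - q) ^ 2) := by
          rw [sum_div]
          by_cases ha : a ≤ n + 1
          · rw [sum_Ico_succ_top ha, sub_self, zero_mul, mul_zero, add_zero]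
            refine sum_congr rfl fun k hk => ?_
            have := mem_Ico.1 hk
            rw [h.u_red (by omega)]
            ring
          · rw [Ico_eq_empty (by omega), Ico_eq_empty (by omega), sum_empty, sum_empty]
        rw [← e1, mul_sum, ← sum_sub_distrib]
        refine sum_congr rfl fun k _ => ?_
        rw [Nw_succ]
        ring
      rw [key, ih (n + 1), ih n]
      by_cases c1 : a + (s + 1) ≤ n + 1
      · rw [if_pos c1, if_pos (by omega), if_pos (by omega)]
        obtain ⟨d, rfl⟩ : ∃ d, n = a + s + d := ⟨n - (a + s), by omega⟩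
        have hee := he s (a + s + d) (by omega)
        rw [show a + s + d + 1 = (a + s) + (d + 1) by ring, h.xx_sub,
          show a + s + (d + 1) - (a + s) = d + 1 by omega,
          show a + s + d - (a + s) = d by omega,
          show a + s + (d + 1) - (a + (s + 1)) = d by omega,
          show a + s + (d + 1) + a = (a + s + d + a) + 1 by ring, qp_succ q d,
          qp_succ q (a + s + d + a), h.qn_eq, h.qn_eq, fac_succ, h.qn_eq,
          show a + s + (d + 1) + (a + s) = a + s + d + 1 + a + s by ring]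
        rw [show a + s + d + 1 = a + s + (d + 1) by ring] at hee ⊢
        have h1 := h.one_sub
        have h2 := h.sub_ne (Nat.succ_pos d)
        have h3 := h.sub_ne (Nat.succ_pos (a + s + d + a))
        have h4 := h.qp_ne d
        have h5 := h.qp_ne (a + s + d + a)
        have h6 : q ^ (a + s + (d + 1)) ≠ 0 := pow_ne_zero _ h.ne
        rw [Nat.succ_eq_add_one] at h2 h3
        field_simp
        linear_combination (1 - q) ^ (s + 1) * fac q s * hee
      · rw [if_neg c1]
        by_cases c2 : a + s ≤ n + 1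
        · have : n + 1 = a + s := by omega
          rw [if_neg (show ¬ a + s ≤ n by omega), this, sub_self]; ring
        · rw [if_neg c2, if_neg (show ¬ a + s ≤ n by omega)]; ring

/-- positivity for a weight satisfying the recursion -/
theorem Gen.base_mem {q : F} (h : Gen q) (R : Subsemiring F) (hq : q ∈ R) (hq' : q⁻¹ ∈ R)
    (a : ℕ) (Φ : ℕ → F) (e : ℕ → ℕ → F) (heR : ∀ s n, e s n ∈ R)
    (h0 : ∀ n, a ≤ n → ∑ k ∈ Ico a (n + 1), Φ k * u q k n =
      e 0 n * (1 - q ^ (n + a)) / (qp q (n - a) * qp q (n + a)))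
    (hz : a = 0 → Φ 0 = 0)
    (he : ∀ s n, a + s ≤ n → (1 - q ^ (n + 1 + a + s)) * e s (n + 1) -
      (1 - q ^ (n + a)) * e s n = (1 - q ^ (s + 1)) * q ^ (n + 1) * e (s + 1) (n + 1))
    (n r : ℕ) : ∀ s, qp q (n - a) * qp q (n + a - 1) *
      ∑ k ∈ Ico a (n + 1), Φ k * xx q k ^ r * Nw q a s k * u q k n ∈ R := by
  induction r with
  | zero =>
    intro s
    simp only [pow_zero, mul_one]
    rw [h.newton a Φ e h0 hz he s n]
    split_ifs with hs
    · by_cases hn : n + a = 0
      · rw [hn, pow_zero, sub_self]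
        simp only [mul_zero, zero_div]
        exact R.zero_mem
      · obtain ⟨c, hc⟩ : ∃ c, n + a = c + 1 := ⟨n + a - 1, by omega⟩
        have e1 : qp q (n - a) * qp q (n + a - 1) * (fac q s / (1 - q) ^ s * e s n *
            (1 - q ^ (n + a)) / (qp q (n - (a + s)) * qp q (n + a))) =
            fac q s * fac q s * e s n * G q (n - a) s := by
          rw [hc, Nat.add_sub_cancel, qp_succ, G_of_le q (show s ≤ n - a by omega),
            show n - a - s = n - (a + s) by omega]
          have h1 := h.one_sub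
          have h2 := h.sub_ne (Nat.succ_pos c)
          have h3 := h.qp_ne c
          have h4 := h.qp_ne (n - (a + s))
          have h5 := h.qp_ne s
          rw [Nat.succ_eq_add_one] at h2
          have h6 := h.qp_eq s
          have h7 : fac q s ≠ 0 := by
            intro h8
            rw [h8, mul_zero] at h6
            exact h5 h6
          rw [h6]
          field_simp
        rw [e1]
        have hf : fac q s ∈ R := R.prod_mem fun _ _ => qn_mem R hq _
        exact R.mul_mem (R.mul_mem (R.mul_mem hf hf) (heR s n)) (h.G_mem R hq _ _)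
    · rw [mul_zero]; exact R.zero_mem
  | succ r ih =>
    intro s
    have e1 : qp q (n - a) * qp q (n + a - 1) *
        ∑ k ∈ Ico a (n + 1), Φ k * xx q k ^ (r + 1) * Nw q a s k * u q k n =
        qp q (n - a) * qp q (n + a - 1) *
          (∑ k ∈ Ico a (n + 1), Φ k * xx q k ^ r * Nw q a (s + 1) k * u q k n) +
        xx q (a + s) * (qp q (n - a) * qp q (n + a - 1) *
          ∑ k ∈ Ico a (n + 1), Φ k * xx q k ^ r * Nw q a s k * u q k n) := by
      rw [mul_left_comm, ← mul_add, mul_sum (Ico a (n + 1)) _ (xx q (a + s)), ← sum_add_distrib]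
      congr 1
      refine sum_congr rfl fun k _ => ?_
      rw [Nw_succ]
      ring
    rw [e1]
    exact R.add_mem (ih (s + 1)) (R.mul_mem (xx_mem R hq hq' _) (ih s))

theorem Gen.tele0 {q : F} (h : Gen q) (d : ℕ) : ∀ a : ℕ,
    ∑ k ∈ Ico a (a + d + 1), (1 - q ^ (2 * k)) / q ^ k * u q k (a + d) =
      1 / q ^ (a + d) * (1 - q ^ (a + d + a)) / (qp q (a + d - a) * qp q (a + d + a)) := by
  induction d with
  | zero =>
    intro a
    rw [add_zero, Nat.Ico_succ_singleton, sum_singleton, u_of_le q le_rfl, Nat.sub_self, two_mul]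
    ring
  | succ d ih =>
    intro a
    rw [sum_eq_sum_Ico_succ_bot (by omega)]
    have := ih (a + 1)
    rw [show a + 1 + d = a + (d + 1) by ring] at this
    rw [this, u_of_le q (Nat.le_add_right _ _), show a + (d + 1) - a = d + 1 by omega,
      show a + (d + 1) - (a + 1) = d by omega, qp_succ q d,
      show a + (d + 1) + (a + 1) = (a + (d + 1) + a) + 1 by ring, qp_succ q (a + (d + 1) + a)]
    have h2 := h.sub_ne (Nat.succ_pos d)
    have h3 := h.sub_ne (Nat.succ_pos (a + (d + 1) + a))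
    have h4 := h.qp_ne d
    have h5 := h.qp_ne (a + (d + 1) + a)
    have h6 : q ^ a ≠ 0 := pow_ne_zero _ h.ne
    have h7 : q ^ (a + (d + 1)) ≠ 0 := pow_ne_zero _ h.ne
    rw [Nat.succ_eq_add_one] at h2 h3
    field_simp
    ring

theorem Gen.tele1 {q : F} (h : Gen q) (d : ℕ) : ∀ a : ℕ,
    ∑ k ∈ Ico a (a + d + 1), q ^ (k ^ 2) * ((1 - q ^ (2 * k)) / q ^ k) * u q k (a + d) =
      q ^ (a ^ 2) / q ^ a * (1 - q ^ (a + d + a)) / (qp q (a + d - a) * qp q (a + d + a)) := by
  induction d with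
  | zero =>
    intro a
    rw [add_zero, Nat.Ico_succ_singleton, sum_singleton, u_of_le q le_rfl, Nat.sub_self, two_mul]
    ring
  | succ d ih =>
    intro a
    rw [sum_eq_sum_Ico_succ_bot (by omega)]
    have := ih (a + 1)
    rw [show a + 1 + d = a + (d + 1) by ring] at this
    rw [this, u_of_le q (Nat.le_add_right _ _), show a + (d + 1) - a = d + 1 by omega,
      show a + (d + 1) - (a + 1) = d by omega, qp_succ q d,
      show a + (d + 1) + (a + 1) = (a + (d + 1) + a) + 1 by ring, qp_succ q (a + (d + 1) + a),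
      show (a + 1) ^ 2 = a ^ 2 + 2 * a + 1 by ring]
    have h2 := h.sub_ne (Nat.succ_pos d)
    have h3 := h.sub_ne (Nat.succ_pos (a + (d + 1) + a))
    have h4 := h.qp_ne d
    have h5 := h.qp_ne (a + (d + 1) + a)
    have h6 : q ^ a ≠ 0 := pow_ne_zero _ h.ne
    have h7 : q ^ (a + 1) ≠ 0 := pow_ne_zero _ h.ne
    rw [Nat.succ_eq_add_one] at h2 h3
    field_simp
    ring

/-- the weight -/
noncomputable def W (q : F) (j : ℤ) (r k : ℕ) : F :=
  (q ^ (k ^ 2)) ^ j * (qn q (2 * k) / q ^ k) * xx q k ^ r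

theorem W_zero (q : F) (j : ℤ) (r : ℕ) : W q j r 0 = 0 := by
  unfold W
  rw [mul_zero, qn_zero]; simp

theorem Gen.W_add {q : F} (h : Gen q) (j : ℤ) (r k : ℕ) :
    W q (j + 1) r k = W q j r k * q ^ (k ^ 2) := by
  unfold W
  rw [zpow_add_one₀ (pow_ne_zero _ h.ne)]
  ring

theorem Gen.base0 {q : F} (h : Gen q) (R : Subsemiring F) (hq : q ∈ R) (hq' : q⁻¹ ∈ R)
    (a x r : ℕ) : T q a (W q 0 r) x [] ∈ R := by
  have := h.base_mem R hq hq' a (fun k => (1 - q ^ (2 * k)) / q ^ k)
    (fun s n => 1 / (q ^ n) ^ (s + 1)) (fun s n => by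
      rw [one_div, ← inv_pow, ← inv_pow]
      exact R.pow_mem (R.pow_mem hq' _) _) (fun n hn => by
      obtain ⟨d, rfl⟩ : ∃ d, n = a + d := ⟨n - a, by omega⟩
      rw [h.tele0 d a]
      simp) (fun _ => by simp) (fun s n _ => by
      have h1 : q ^ n ≠ 0 := pow_ne_zero _ h.ne
      have h2 : q ≠ 0 := h.ne
      simp only [pow_succ q n, mul_pow]
      field_simp
      ring) x r 0
  have e1 : T q a (W q 0 r) x [] = qp q (x - a) * qp q (x + a - 1) *
      ∑ k ∈ Ico a (x + 1), (1 - q ^ (2 * k)) / q ^ k * xx q k ^ r * Nw q a 0 k * u q k x := by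
    unfold T
    simp only [lst, ch, U, mul_one]
    have e0 : ∀ Z : F, (1 - q) * qp q (x - a) * qp q (x + a - 1) * Z =
        qp q (x - a) * qp q (x + a - 1) * ((1 - q) * Z) := fun Z => by ring
    rw [e0, mul_sum _ _ (1 - q)]
    congr 1
    refine sum_congr rfl fun k _ => ?_
    unfold W
    rw [h.qn_eq, zpow_zero]
    simp only [Nw, range_zero, prod_empty]
    have h1 := h.one_sub
    field_simp
  rw [e1]
  exact this

theorem Gen.base1 {q : F} (h : Gen q) (R : Subsemiring F) (hq : q ∈ R) (hq' : q⁻¹ ∈ R)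
    (a x r : ℕ) : T q a (W q 1 r) x [] ∈ R := by
  have := h.base_mem R hq hq' a (fun k => q ^ (k ^ 2) * ((1 - q ^ (2 * k)) / q ^ k))
    (fun s n => q ^ (a ^ 2) / q ^ a * (q ^ a / q) ^ s) (fun s n => by
      rw [div_eq_mul_inv, div_eq_mul_inv, ← inv_pow]
      exact R.mul_mem (R.mul_mem (R.pow_mem hq _) (R.pow_mem hq' _))
        (R.pow_mem (R.mul_mem (R.pow_mem hq _) hq') _)) (fun n hn => by
      obtain ⟨d, rfl⟩ : ∃ d, n = a + d := ⟨n - a, by omega⟩
      rw [h.tele1 d a]
      simp) (fun _ => by simp) (fun s n _ => by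
      have h1 : q ^ a ≠ 0 := pow_ne_zero _ h.ne
      have h2 : q ≠ 0 := h.ne
      have h3 : (q ^ a / q) ^ (s + 1) = (q ^ a / q) ^ s * (q ^ a / q) := pow_succ _ _
      rw [h3]
      generalize (q ^ a / q) ^ s = Y
      field_simp
      ring) x r 0
  have e1 : T q a (W q 1 r) x [] = qp q (x - a) * qp q (x + a - 1) *
      ∑ k ∈ Ico a (x + 1), q ^ (k ^ 2) * ((1 - q ^ (2 * k)) / q ^ k) * xx q k ^ r *
        Nw q a 0 k * u q k x := by
    unfold T
    simp only [lst, ch, U, mul_one]
    have e0 : ∀ Z : F, (1 - q) * qp q (x - a) * qp q (x + a - 1) * Z =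
        qp q (x - a) * qp q (x + a - 1) * ((1 - q) * Z) := fun Z => by ring
    rw [e0, mul_sum _ _ (1 - q)]
    congr 1
    refine sum_congr rfl fun k _ => ?_
    unfold W
    rw [h.qn_eq, zpow_one]
    simp only [Nw, range_zero, prod_empty]
    have h1 := h.one_sub
    field_simp
  rw [e1]
  exact this

end Pool.Agent.Q95.CQ
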