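import Pool.Agent.Q95.CQ.Fin

/-!
# Conversion of the cyclic sum
-/

set_option autoImplicit false

open Finset

namespace Pool.Agent.Q95.CQ

variable {F : Type*} [Field F]

/-- `1 / (q)_{n-k}` -/
noncomputable def vp (q : F) (k n : ℕ) : F := if k ≤ n then 1 / qp q (n - k) else 0

/-- `1 / (q)_{n+k}` -/
noncomputable def vm (q : F) (k n : ℕ) : F := 1 / qp q (n + k)

theorem u_eq (q : F) (k n : ℕ) : u q k n = vp q k n * vm q k n := by
  unfold u vp vm
  split_ifs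
  · rw [div_mul_div_comm, one_mul]
  · rw [zero_mul]

theorem Gen.G_eq {q : F} (_ : Gen q) (k x y : ℕ) :
    G q (y + x) (k + x) = qp q (x + y) * (vp q k y * vm q k x) := by
  by_cases hk : k ≤ y
  · obtain ⟨d, rfl⟩ : ∃ d, y = k + d := ⟨y - k, by omega⟩
    rw [show k + d + x = (k + x) + d by ring, G_add]
    unfold vp vm
    rw [if_pos hk, show k + d - k = d by omega, show x + (k + d) = k + x + d by ring,
      show x + k = k + x by ring]
    rw [div_eq_mul_inv, mul_inv, one_div, one_div]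
    ring
  · rw [G_of_lt q (by omega)]
    unfold vp
    rw [if_neg hk]
    ring

/-- `[n s, n (s+1), …, n (s+c-1)]` -/
def L (n : ℕ → ℕ) (s : ℕ) : ℕ → List ℕ
  | 0 => []
  | c + 1 => n s :: L n (s + 1) c

theorem L_length (n : ℕ → ℕ) (c : ℕ) : ∀ s, (L n s c).length = c := by
  induction c with
  | zero => intro s; rfl
  | succ c ih => intro s; rw [L, List.length_cons, ih]

theorem L_lst (n : ℕ → ℕ) (c : ℕ) : ∀ s, lst (n s) (L n (s + 1) c) = n (s + c) := by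
  induction c with
  | zero => intro s; rfl
  | succ c ih => intro s; rw [L, lst, ih]; congr 1; ring

theorem L_ch (q : F) (n : ℕ → ℕ) (c : ℕ) : ∀ s, ch q (n s) (L n (s + 1) c) =
    ∏ i ∈ Ico s (s + c), qp q (n i + n (i + 1)) := by
  induction c with
  | zero => intro s; simp [L, ch]
  | succ c ih =>
    intro s
    rw [L, ch, ih, ← prod_eq_prod_Ico_succ_bot (a := s) (b := s + 1 + c) (by omega)
      (fun i => qp q (n i + n (i + 1))), show s + 1 + c = s + (c + 1) by ring]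

theorem L_U (q : F) (k : ℕ) (n : ℕ → ℕ) (c : ℕ) : ∀ s, U q k (L n s c) =
    ∏ i ∈ Ico s (s + c), u q k (n i) := by
  induction c with
  | zero => intro s; simp [L, U]
  | succ c ih =>
    intro s
    rw [L, U, ih, ← prod_eq_prod_Ico_succ_bot (a := s) (b := s + 1 + c) (by omega)
      (fun i => u q k (n i)), show s + 1 + c = s + (c + 1) by ring]

theorem Gen.conv {q : F} (h : Gen q) (m : ℕ) (n : ℕ → ℕ) (hn : 0 < n (m + 1))
    (hc : n (m + 1 + 1) = n 1) (j : ℤ) (a r : ℕ) (ha : a ≤ n 1) :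
    (∑ k ∈ Icc a (n 1), q ^ (j * (k : ℤ) ^ 2 - ((r : ℤ) + 1) * (k : ℤ)) * qn q (2 * k) *
      qn q k ^ (2 * r) * ∏ i ∈ Icc 1 (m + 1), G q (n (i + 1) + n i) (k + n i)) /
      (qn q (n (m + 1) + a) * G q (n (m + 1) + n 1) (n 1 - a)) =
    T q a (W q j r) (n 1) (L n 2 m) := by
  have hw : ∀ k : ℕ, q ^ (j * (k : ℤ) ^ 2 - ((r : ℤ) + 1) * (k : ℤ)) * qn q (2 * k) *
      qn q k ^ (2 * r) = W q j r k := by
    intro k
    unfold W xx
    have e1 : q ^ (j * (k : ℤ) ^ 2 - ((r : ℤ) + 1) * (k : ℤ)) =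
        (q ^ (k ^ 2)) ^ j / (q ^ k) ^ (r + 1) := by
      rw [zpow_sub₀ h.ne, ← zpow_natCast q (k ^ 2), ← zpow_mul, ← pow_mul, ← zpow_natCast q]
      push_cast
      rw [mul_comm j, mul_comm ((r : ℤ) + 1)]
    rw [e1]
    have h1 : q ^ k ≠ 0 := pow_ne_zero _ h.ne
    generalize (q ^ (k ^ 2)) ^ j = b
    generalize q ^ k = c at h1
    rw [div_pow, pow_mul, pow_succ]
    field_simp
  have hP : ∀ k : ℕ, ∏ i ∈ Icc 1 (m + 1), G q (n (i + 1) + n i) (k + n i) =
      (ch q (n 1) (L n 2 m) * qp q (n (m + 1) + n 1)) * (u q k (n 1) * U q k (L n 2 m)) := by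
    intro k
    have e1 : ∏ i ∈ Icc 1 (m + 1), G q (n (i + 1) + n i) (k + n i) =
        (∏ i ∈ Ico 1 (m + 2), qp q (n i + n (i + 1))) *
          ((∏ i ∈ Ico 1 (m + 2), vp q k (n (i + 1))) * ∏ i ∈ Ico 1 (m + 2), vm q k (n i)) := by
      rw [← prod_mul_distrib, ← prod_mul_distrib]
      exact prod_congr rfl fun i _ => h.G_eq k (n i) (n (i + 1))
    have e2 : ∏ i ∈ Ico 1 (m + 2), vp q k (n (i + 1)) = ∏ i ∈ Ico 1 (m + 2), vp q k (n i) := by
      rw [show m + 2 = m + 1 + 1 by ring, prod_Ico_succ_top (by omega), hc,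
        prod_eq_prod_Ico_succ_bot (show 1 < m + 1 + 1 by omega) (fun i => vp q k (n i)), mul_comm]
      congr 1
      rw [← prod_Ico_add' (fun i => vp q k (n i)) 1 (m + 1) 1]
    have e3 : (∏ i ∈ Ico 1 (m + 2), qp q (n i + n (i + 1))) =
        ch q (n 1) (L n 2 m) * qp q (n (m + 1) + n 1) := by
      rw [show m + 2 = m + 1 + 1 by ring, prod_Ico_succ_top (by omega), hc, L_ch q n m 1,
        show 1 + m = m + 1 by ring]
    have e4 : (∏ i ∈ Ico 1 (m + 2), vp q k (n i)) * ∏ i ∈ Ico 1 (m + 2), vm q k (n i) =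
        u q k (n 1) * U q k (L n 2 m) := by
      rw [← prod_mul_distrib, L_U q k n m 2, show 2 + m = m + 2 by ring,
        ← prod_eq_prod_Ico_succ_bot (show 1 < m + 2 by omega) (fun i => u q k (n i))]
      exact prod_congr rfl fun i _ => (u_eq q k (n i)).symm
    rw [e1, e2, e3, e4]
  have hnum : (∑ k ∈ Icc a (n 1), q ^ (j * (k : ℤ) ^ 2 - ((r : ℤ) + 1) * (k : ℤ)) *
      qn q (2 * k) * qn q k ^ (2 * r) * ∏ i ∈ Icc 1 (m + 1), G q (n (i + 1) + n i) (k + n i)) =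
      (ch q (n 1) (L n 2 m) * qp q (n (m + 1) + n 1)) *
        ∑ k ∈ Ico a (n 1 + 1), W q j r k * (u q k (n 1) * U q k (L n 2 m)) := by
    rw [mul_sum]
    refine sum_congr ?_ fun k _ => ?_
    · ext k; simp only [mem_Icc, mem_Ico]; omega
    · rw [hw, hP]; ring
  rw [hnum]
  unfold T
  rw [L_lst n m 1, show 1 + m = m + 1 by ring, h.qn_eq,
    G_of_le q (show n 1 - a ≤ n (m + 1) + n 1 by omega),
    show n (m + 1) + n 1 - (n 1 - a) = n (m + 1) + a by omega]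
  obtain ⟨c, hc'⟩ : ∃ c, n (m + 1) + a = c + 1 := ⟨n (m + 1) + a - 1, by omega⟩
  rw [hc', Nat.add_sub_cancel, qp_succ]
  have h1 := h.one_sub
  have h2 := h.sub_ne (Nat.succ_pos c)
  have h3 := h.qp_ne c
  have h4 := h.qp_ne (n 1 - a)
  have h5 := h.qp_ne (n (m + 1) + n 1)
  rw [Nat.succ_eq_add_one] at h2
  field_simp

open Polynomial

/-- elements of the form `φ p / φ X ^ N` -/
def Lau {A : Type*} [CommSemiring A] (φ : A[X] →+* F) : Subsemiring F where
  carrier := {x | ∃ (N : ℕ) (p : A[X]), x * φ X ^ N = φ p}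
  mul_mem' := by
    rintro x y ⟨N, p, hp⟩ ⟨M, p', hp'⟩
    refine ⟨N + M, p * p', ?_⟩
    rw [map_mul, ← hp, ← hp', pow_add]; ring
  one_mem' := ⟨0, 1, by simp⟩
  add_mem' := by
    rintro x y ⟨N, p, hp⟩ ⟨M, p', hp'⟩
    refine ⟨N + M, p * X ^ M + p' * X ^ N, ?_⟩
    rw [map_add, map_mul, map_mul, map_pow, map_pow, ← hp, ← hp', pow_add]; ring
  zero_mem' := ⟨0, 0, by simp⟩

theorem Lau_X {A : Type*} [CommSemiring A] (φ : A[X] →+* F) : φ X ∈ Lau φ :=
  ⟨0, X, by simp⟩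

theorem Lau_inv {A : Type*} [CommSemiring A] (φ : A[X] →+* F) (h : φ X ≠ 0) :
    (φ X)⁻¹ ∈ Lau φ := ⟨1, 1, by rw [pow_one, inv_mul_cancel₀ h, map_one]⟩

theorem Lau_neg {A : Type*} [CommRing A] (φ : A[X] →+* F) : (-1 : F) ∈ Lau φ :=
  ⟨0, -1, by simp⟩

theorem gen_X : Gen (RatFunc.X : RatFunc ℚ) where
  ne := RatFunc.X_ne_zero
  pow := by
    intro n hn h
    rw [← RatFunc.algebraMap_X, ← map_pow, ← map_one (algebraMap ℚ[X] (RatFunc ℚ))] at h
    have h1 := RatFunc.algebraMap_injective ℚ h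
    have h2 := congrArg natDegree h1
    rw [natDegree_X_pow, natDegree_one] at h2
    omega

end Pool.Agent.Q95.CQ
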