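import Mathlib

/-!
# q-binomial coefficients in a field, and four forms of the q-Vandermonde identity
-/

set_option autoImplicit false

open Finset

namespace Pool.Agent.Q95.CQ

variable {F : Type*} [Field F]

/-- `q` is neither zero nor a root of unity. -/
structure Gen (q : F) : Prop where
  ne : q ≠ 0
  pow : ∀ n : ℕ, 0 < n → q ^ n ≠ 1

/-- `(q)_n` -/
def qp (q : F) (n : ℕ) : F := ∏ i ∈ range n, (1 - q ^ (i + 1))

theorem qp_zero (q : F) : qp q 0 = 1 := by simp [qp]

theorem qp_succ (q : F) (n : ℕ) : qp q (n + 1) = qp q n * (1 - q ^ (n + 1)) := by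
  unfold qp; rw [prod_range_succ]

theorem Gen.sub_ne {q : F} (h : Gen q) {n : ℕ} (hn : 0 < n) : (1 : F) - q ^ n ≠ 0 := by
  intro hh
  exact h.pow n hn (sub_eq_zero.1 hh).symm

theorem Gen.qp_ne {q : F} (h : Gen q) (n : ℕ) : qp q n ≠ 0 := by
  unfold qp
  rw [prod_ne_zero_iff]
  intro i _
  exact h.sub_ne (Nat.succ_pos i)

/-- the Gaussian binomial coefficient -/
noncomputable def G (q : F) (N k : ℕ) : F := if k ≤ N then qp q N / (qp q k * qp q (N - k)) else 0

theorem G_of_le (q : F) {N k : ℕ} (h : k ≤ N) : G q N k = qp q N / (qp q k * qp q (N - k)) := by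
  unfold G; rw [if_pos h]

theorem G_add (q : F) (k l : ℕ) : G q (k + l) k = qp q (k + l) / (qp q k * qp q l) := by
  rw [G_of_le q (Nat.le_add_right k l), Nat.add_sub_cancel_left]

theorem G_of_lt (q : F) {N k : ℕ} (h : N < k) : G q N k = 0 := by
  unfold G; rw [if_neg (by omega)]

theorem Gen.G_zero {q : F} (h : Gen q) (N : ℕ) : G q N 0 = 1 := by
  rw [G_of_le q (Nat.zero_le N), qp_zero, one_mul, Nat.sub_zero, div_self (h.qp_ne N)]

theorem Gen.G_self {q : F} (h : Gen q) (N : ℕ) : G q N N = 1 := by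
  rw [G_of_le q le_rfl, Nat.sub_self, qp_zero, mul_one, div_self (h.qp_ne N)]

theorem Gen.pascal1 {q : F} (h : Gen q) (N k : ℕ) :
    G q (N + 1) (k + 1) = G q N k + q ^ (k + 1) * G q N (k + 1) := by
  rcases lt_trichotomy k N with hk | hk | hk
  · obtain ⟨d, rfl⟩ : ∃ d, N = k + 1 + d := ⟨N - (k + 1), by omega⟩
    have e1 : k + 1 + d + 1 = (k + 1) + (d + 1) := by ring
    have e2 : k + 1 + d = k + (d + 1) := by ring
    rw [e1, G_add, G_add]
    conv_rhs => rw [show G q (k + 1 + d) k = G q (k + (d + 1)) k by rw [e2]]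
    rw [G_add]
    have h1 := h.qp_ne (k + 1 + d)
    have h2 := h.qp_ne k
    have h3 := h.qp_ne d
    have h4 := h.sub_ne (Nat.succ_pos k)
    have h5 := h.sub_ne (Nat.succ_pos d)
    have a1 : qp q (k + 1 + (d + 1)) = qp q (k + 1 + d) * (1 - q ^ (k + 1 + d + 1)) := qp_succ q _
    have a2 : qp q (k + (d + 1)) = qp q (k + 1 + d) := by rw [e2]
    rw [a1, a2, qp_succ q k, qp_succ q d]
    field_simp
    ring
  · subst hk
    rw [h.G_self, h.G_self, G_of_lt q (Nat.lt_succ_self k), mul_zero, add_zero]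
  · rw [G_of_lt q (by omega), G_of_lt q hk, G_of_lt q (by omega), mul_zero, add_zero]

theorem Gen.pascal2 {q : F} (h : Gen q) (N k : ℕ) :
    G q (N + 1) (k + 1) = G q N (k + 1) + q ^ (N - k) * G q N k := by
  rcases lt_trichotomy k N with hk | hk | hk
  · obtain ⟨d, rfl⟩ : ∃ d, N = k + 1 + d := ⟨N - (k + 1), by omega⟩
    have e1 : k + 1 + d + 1 = (k + 1) + (d + 1) := by ring
    have e2 : k + 1 + d = k + (d + 1) := by ring
    rw [e1, G_add, G_add]
    conv_rhs => rw [show G q (k + 1 + d) k = G q (k + (d + 1)) k by rw [e2]]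
    rw [G_add, show k + 1 + d - k = d + 1 by omega]
    have h1 := h.qp_ne (k + 1 + d)
    have h2 := h.qp_ne k
    have h3 := h.qp_ne d
    have h4 := h.sub_ne (Nat.succ_pos k)
    have h5 := h.sub_ne (Nat.succ_pos d)
    have a1 : qp q (k + 1 + (d + 1)) = qp q (k + 1 + d) * (1 - q ^ (k + 1 + d + 1)) := qp_succ q _
    have a2 : qp q (k + (d + 1)) = qp q (k + 1 + d) := by rw [e2]
    rw [a1, a2, qp_succ q k, qp_succ q d]
    field_simp
    ring
  · subst hk
    rw [h.G_self, h.G_self, G_of_lt q (Nat.lt_succ_self k), Nat.sub_self, pow_zero]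
    ring
  · rw [G_of_lt q (by omega), G_of_lt q hk, G_of_lt q (by omega), mul_zero, add_zero]

/-- splitting of a sum with the first Pascal rule -/
theorem Gen.split1 {q : F} (h : Gen q) (A : ℕ) (f : ℕ → F) :
    ∑ t ∈ range (A + 2), G q (A + 1) t * f t =
      ∑ t ∈ range (A + 1), G q A t * (f (t + 1) + q ^ t * f t) := by
  rw [sum_range_succ']
  have h1 : ∀ t ∈ range (A + 1), G q (A + 1) (t + 1) * f (t + 1) =
      G q A t * f (t + 1) + q ^ (t + 1) * G q A (t + 1) * f (t + 1) := by
    intro t _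
    rw [h.pascal1]; ring
  rw [sum_congr rfl h1, sum_add_distrib]
  have h2 : ∑ t ∈ range (A + 1), q ^ (t + 1) * G q A (t + 1) * f (t + 1) + G q (A + 1) 0 * f 0 =
      ∑ t ∈ range (A + 1), G q A t * (q ^ t * f t) := by
    have h3 : G q (A + 1) 0 * f 0 = q ^ 0 * G q A 0 * f 0 := by
      rw [h.G_zero, h.G_zero]; ring
    rw [h3, ← sum_range_succ' (fun t => q ^ t * G q A t * f t) (A + 1), sum_range_succ,
      G_of_lt q (Nat.lt_succ_self A), mul_zero, zero_mul, add_zero]
    refine sum_congr rfl fun t _ => ?_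
    ring
  rw [add_assoc, h2, ← sum_add_distrib]
  refine sum_congr rfl fun t _ => ?_
  ring

/-- splitting of a sum with the second Pascal rule -/
theorem Gen.split2 {q : F} (h : Gen q) (A : ℕ) (f : ℕ → F) :
    ∑ t ∈ range (A + 2), G q (A + 1) t * f t =
      ∑ t ∈ range (A + 1), G q A t * (q ^ (A - t) * f (t + 1) + f t) := by
  rw [sum_range_succ']
  have h1 : ∀ t ∈ range (A + 1), G q (A + 1) (t + 1) * f (t + 1) =
      G q A t * (q ^ (A - t) * f (t + 1)) + G q A (t + 1) * f (t + 1) := by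
    intro t _
    rw [h.pascal2]; ring
  rw [sum_congr rfl h1, sum_add_distrib]
  have h2 : ∑ t ∈ range (A + 1), G q A (t + 1) * f (t + 1) + G q (A + 1) 0 * f 0 =
      ∑ t ∈ range (A + 1), G q A t * f t := by
    have h3 : G q (A + 1) 0 * f 0 = G q A 0 * f 0 := by
      rw [h.G_zero, h.G_zero]
    rw [h3, ← sum_range_succ' (fun t => G q A t * f t) (A + 1), sum_range_succ,
      G_of_lt q (Nat.lt_succ_self A), zero_mul, add_zero]
  rw [add_assoc, h2, ← sum_add_distrib]
  refine sum_congr rfl fun t _ => ?_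
  ring

theorem Gen.V1 {q : F} (h : Gen q) (A : ℕ) : ∀ B D : ℕ,
    ∑ t ∈ range (A + 1), G q A t * (q ^ (t * (t + D)) * G q B (t + D)) = G q (A + B) (A + D) := by
  induction A with
  | zero => intro B D; simp [h.G_zero]
  | succ A ih =>
    intro B D
    rw [h.split1]
    have := ih (B + 1) (D + 1)
    rw [show A + 1 + B = A + (B + 1) by ring, show A + 1 + D = A + (D + 1) by ring, ← this]
    refine sum_congr rfl fun t _ => ?_
    congr 1
    rw [show t + (D + 1) = (t + D) + 1 by ring, h.pascal1, show t + 1 + D = t + D + 1 by ring]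
    ring

theorem Gen.V2 {q : F} (h : Gen q) (A : ℕ) : ∀ B D : ℕ,
    ∑ t ∈ range (A + 1), G q A t * (q ^ ((A - t) * (B - (t + D))) * G q B (t + D)) =
      G q (A + B) (A + D) := by
  induction A with
  | zero => intro B D; simp [h.G_zero]
  | succ A ih =>
    intro B D
    rw [h.split2]
    have := ih (B + 1) (D + 1)
    rw [show A + 1 + B = A + (B + 1) by ring, show A + 1 + D = A + (D + 1) by ring, ← this]
    refine sum_congr rfl fun t ht => ?_
    have ht' : t ≤ A := by
      have := mem_range.1 ht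
      omega
    congr 1
    rw [show t + (D + 1) = (t + D) + 1 by ring, h.pascal2, show t + 1 + D = t + D + 1 by ring]
    obtain ⟨e, rfl⟩ : ∃ e, A = t + e := ⟨A - t, by omega⟩
    rw [show t + e + 1 - t = e + 1 by omega, show t + e - t = e by omega,
      show t + e + 1 - (t + 1) = e by omega, show B + 1 - (t + D + 1) = B - (t + D) by omega]
    by_cases hB : t + D + 1 ≤ B
    · obtain ⟨b, rfl⟩ : ∃ b, B = t + D + 1 + b := ⟨B - (t + D + 1), by omega⟩
      rw [show t + D + 1 + b - (t + D + 1) = b by omega, show t + D + 1 + b - (t + D) = b + 1 by omega]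
      ring
    · rw [G_of_lt q (show B < t + D + 1 by omega)]
      ring

theorem Gen.E1 {q : F} (h : Gen q) (A : ℕ) : ∀ D : ℕ,
    ∑ t ∈ range (A + 1), G q A t * (q ^ (t * (t + D)) * (qp q (A + D) / qp q (t + D))) = 1 := by
  induction A with
  | zero => intro D; simp [h.G_zero, h.qp_ne]
  | succ A ih =>
    intro D
    rw [h.split1, ← ih (D + 1)]
    refine sum_congr rfl fun t _ => ?_
    congr 1
    have h1 := h.qp_ne (t + D)
    have h2 := h.sub_ne (Nat.succ_pos (t + D))
    rw [show A + 1 + D = A + (D + 1) by ring, show t + 1 + D = t + D + 1 by ring,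
      show t + (D + 1) = t + D + 1 by ring, qp_succ]
    field_simp
    ring

theorem Gen.E2 {q : F} (h : Gen q) (A : ℕ) : ∀ D : ℕ,
    ∑ t ∈ range (A + 1), G q A t * ((-1) ^ (A - t) * q ^ ((A - t).choose 2) *
      (qp q (A + D) / qp q (t + D))) = q ^ (A * (A + D)) := by
  induction A with
  | zero => intro D; simp [h.G_zero, h.qp_ne]
  | succ A ih =>
    intro D
    have hE : q ^ ((A + 1) * (A + 1 + D)) = q ^ (A + D + 1) * q ^ (A * (A + (D + 1))) := by
      rw [← pow_add]; congr 1; ring
    rw [h.split2, hE, ← ih (D + 1), mul_sum]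
    clear hE
    refine sum_congr rfl fun t ht => ?_
    have ht' : t ≤ A := by
      have := mem_range.1 ht
      omega
    obtain ⟨e, rfl⟩ : ∃ e, A = t + e := ⟨A - t, by omega⟩
    have h1 := h.qp_ne (t + D)
    have h2 := h.sub_ne (Nat.succ_pos (t + D))
    rw [show t + e + 1 - t = e + 1 by omega, show t + e - t = e by omega,
      show t + e + 1 - (t + 1) = e by omega, show t + e + 1 + D = t + e + (D + 1) by ring,
      show t + 1 + D = t + D + 1 by ring,
      show t + (D + 1) = t + D + 1 by ring, qp_succ q (t + D),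
      show (e + 1).choose 2 = e.choose 2 + e by
        rw [Nat.choose_succ_succ' e 1, Nat.choose_one_right]; ring]
    field_simp
    ring

end Pool.Agent.Q95.CQ
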