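import Pool.Agent.Q95.CQ.Base

/-!
# The main induction
-/

set_option autoImplicit false

open Finset

namespace Pool.Agent.Q95.CQ

variable {F : Type*} [Field F]

theorem qp_mem {q : F} (R : Subsemiring F) (hq : q ∈ R) (hn : (-1 : F) ∈ R) (n : ℕ) :
    qp q n ∈ R := by
  refine R.prod_mem fun i _ => ?_
  have : (1 : F) - q ^ (i + 1) = 1 + (-1) * q ^ (i + 1) := by ring
  rw [this]
  exact R.add_mem R.one_mem (R.mul_mem hn (R.pow_mem hq _))

theorem Gen.ratio {q : F} (h : Gen q) (R : Subsemiring F) (hq : q ∈ R) (hn : (-1 : F) ∈ R)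
    {M N : ℕ} (hMN : M ≤ N) : ∃ c ∈ R, qp q N = c * qp q M := by
  refine ⟨G q N M * qp q (N - M), R.mul_mem (h.G_mem R hq _ _) (qp_mem R hq hn _), ?_⟩
  rw [G_of_le q hMN]
  have h1 := h.qp_ne M
  have h2 := h.qp_ne (N - M)
  field_simp

theorem Gen.stepE {q : F} (h : Gen q) (R : Subsemiring F) (hq : q ∈ R) (hn : (-1 : F) ∈ R)
    (a x : ℕ) (W W' E : ℕ → F) (Z : F) (hZ : Z ∈ R) (hE : ∀ l, E l ∈ R)
    (hX : ∀ k, k ≤ x → W k * u q k x =
      Z * (W' k * ∑ l ∈ Ico k (x + 1), (E l / qp q (x - l)) * u q k l))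
    (hT : ∀ l, a ≤ l → l ≤ x → T q a W' l [] ∈ R) :
    T q a W x [] ∈ R := by
  have e1 : T q a W x [] = ∑ l ∈ Ico a (x + 1), Z * ((1 - q) * qp q (x - a) *
      qp q (x + a - 1)) * ((E l / qp q (x - l)) *
        ∑ k ∈ Ico a (l + 1), W' k * u q k l) := by
    rw [← mul_sum, ← swap q a x W'
      (fun k => ∑ l ∈ Ico k (x + 1), (E l / qp q (x - l)) * u q k l)
      (fun l => E l / qp q (x - l)) (fun k _ _ => rfl)]
    unfold T
    simp only [lst, ch, U, mul_one]
    rw [mul_sum, mul_sum]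
    refine sum_congr rfl fun k hk => ?_
    have hk' := mem_Ico.1 hk
    have := hX k (by omega)
    linear_combination (1 - q) * qp q (x - a) * qp q (x + a - 1) * this
  rw [e1]
  refine R.sum_mem fun l hl => ?_
  have hl' := mem_Ico.1 hl
  obtain ⟨c, hc, hce⟩ := h.ratio R hq hn (show l + a - 1 ≤ x + a - 1 by omega)
  have hT' := hT l hl'.1 (by omega)
  have e2 : Z * ((1 - q) * qp q (x - a) *
      qp q (x + a - 1)) * ((E l / qp q (x - l)) *
        ∑ k ∈ Ico a (l + 1), W' k * u q k l) =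
      Z * E l * G q (x - a) (l - a) * c * T q a W' l [] := by
    unfold T
    simp only [lst, ch, U, mul_one]
    rw [G_of_le q (show l - a ≤ x - a by omega), show x - a - (l - a) = x - l by omega, hce]
    have h1 := h.qp_ne (x - l)
    have h3 := h.qp_ne (l - a)
    field_simp
  rw [e2]
  exact R.mul_mem (R.mul_mem (R.mul_mem (R.mul_mem hZ (hE l)) (h.G_mem R hq _ _)) hc) hT'

theorem Gen.up {q : F} (h : Gen q) (R : Subsemiring F) (hq : q ∈ R) (hn : (-1 : F) ∈ R)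
    (a r : ℕ) (j : ℤ) (hj : ∀ x, T q a (W q j r) x [] ∈ R) :
    ∀ x, T q a (W q (j + 1) r) x [] ∈ R := by
  intro x
  refine h.stepE R hq hn a x _ (W q j r) (fun l => q ^ (l ^ 2)) 1 R.one_mem
    (fun l => R.pow_mem hq _) ?_ (fun l _ _ => hj l)
  intro k hk
  rw [h.W_add, ← h.keyE1 hk]
  ring

theorem Gen.down {q : F} (h : Gen q) (R : Subsemiring F) (hq : q ∈ R) (hq' : q⁻¹ ∈ R)
    (hn : (-1 : F) ∈ R) (a r : ℕ) (j : ℤ) (hj : ∀ x, T q a (W q (j + 1) r) x [] ∈ R) :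
    ∀ x, T q a (W q j r) x [] ∈ R := by
  intro x
  refine h.stepE R hq hn a x _ (W q (j + 1) r)
    (fun l => (-1) ^ (x - l) * q ^ ((x - l).choose 2)) (q⁻¹ ^ (x ^ 2)) (R.pow_mem hq' _)
    (fun l => R.mul_mem (R.pow_mem hn _) (R.pow_mem hq _)) ?_ (fun l _ _ => hj l)
  intro k hk
  rw [h.W_add, mul_assoc (W q j r k), ← h.keyE2 hk]
  have h1 : q ^ (x ^ 2) ≠ 0 := pow_ne_zero _ h.ne
  rw [inv_pow]
  field_simp

theorem Gen.allJ {q : F} (h : Gen q) (R : Subsemiring F) (hq : q ∈ R) (hq' : q⁻¹ ∈ R)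
    (hn : (-1 : F) ∈ R) (a r : ℕ) (j : ℤ) : ∀ x, T q a (W q j r) x [] ∈ R := by
  induction j using Int.induction_on with
  | zero => exact fun x => h.base0 R hq hq' a x r
  | succ i ih => exact h.up R hq hn a r _ ih
  | pred i ih =>
    refine h.down R hq hq' hn a r _ ?_
    rw [sub_add_cancel]
    exact ih

theorem Gen.mainL {q : F} (h : Gen q) (R : Subsemiring F) (hq : q ∈ R) (hq' : q⁻¹ ∈ R)
    (hn : (-1 : F) ∈ R) (a r : ℕ) (j : ℤ) (ns : List ℕ) :
    ∀ x, T q a (W q j r) x ns ∈ R := by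
  induction ns with
  | nil => exact h.allJ R hq hq' hn a r j
  | cons y ns ih =>
    intro x
    refine h.step R hq a x y ns _ (W q j r) (fun l => q ^ ((x - l) * (y - l)))
      (fun l => R.pow_mem hq _) (W_zero q j r) ?_ (fun l _ _ _ => ih l)
    intro k hk
    rw [← h.keyV2 y hk]

theorem Gen.mainP {q : F} (h : Gen q) (R : Subsemiring F) (hq : q ∈ R) (hq' : q⁻¹ ∈ R)
    (a r : ℕ) (ns : List ℕ) :
    ∀ (j : ℕ), j ≤ ns.length + 1 → ∀ x, T q a (W q (j : ℤ) r) x ns ∈ R := by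
  induction ns with
  | nil =>
    intro j hj x
    rw [List.length_nil] at hj
    have : j = 0 ∨ j = 1 := by omega
    rcases this with rfl | rfl
    · exact h.base0 R hq hq' a x r
    · exact h.base1 R hq hq' a x r
  | cons y ns ih =>
    intro j hj x
    rw [List.length_cons] at hj
    rcases j with _ | j
    · refine h.step R hq a x y ns _ (W q ((0 : ℕ) : ℤ) r) (fun l => q ^ ((x - l) * (y - l)))
        (fun l => R.pow_mem hq _) (W_zero q _ r) ?_ (fun l _ _ _ => ih 0 (by omega) l)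
      intro k hk
      rw [← h.keyV2 y hk]
    · refine h.step R hq a x y ns _ (W q (j : ℤ) r) (fun l => q ^ (l ^ 2))
        (fun l => R.pow_mem hq _) (W_zero q _ r) ?_ (fun l _ _ _ => ih j (by omega) l)
      intro k hk
      rw [← h.keyV1 y hk]
      push_cast
      rw [h.W_add]
      ring

end Pool.Agent.Q95.CQ
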