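import Pool.Agent.Q95.CQ.Core

/-!
# The reductions of the cyclic sum
-/

set_option autoImplicit false

open Finset

namespace Pool.Agent.Q95.CQ

variable {F : Type*} [Field F]

/-- `1 / ((q)_{n-k} (q)_{n+k})` -/
noncomputable def u (q : F) (k n : ℕ) : F := if k ≤ n then 1 / (qp q (n - k) * qp q (n + k)) else 0

theorem u_of_le (q : F) {k n : ℕ} (h : k ≤ n) : u q k n = 1 / (qp q (n - k) * qp q (n + k)) := by
  unfold u; rw [if_pos h]

theorem u_of_lt (q : F) {k n : ℕ} (h : n < k) : u q k n = 0 := by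
  unfold u; rw [if_neg (by omega)]

/-- `1 / (q)_{y-l}` -/
noncomputable def v (q : F) (y l : ℕ) : F := if l ≤ y then 1 / qp q (y - l) else 0

theorem v_of_le (q : F) {y l : ℕ} (h : l ≤ y) : v q y l = 1 / qp q (y - l) := by
  unfold v; rw [if_pos h]

theorem v_of_lt (q : F) {y l : ℕ} (h : y < l) : v q y l = 0 := by
  unfold v; rw [if_neg (by omega)]

theorem Gen.keyV {q : F} (h : Gen q) (k A b : ℕ) (e : ℕ → F) (Z : F)
    (he : ∑ t ∈ range (A + 1), G q A t * (e (k + t) * G q (b + 2 * k) (t + 2 * k)) =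
      Z * G q (A + (b + 2 * k)) (A + 2 * k)) :
    Z * (qp q (k + A + (k + b)) * u q k (k + A) * u q k (k + b)) =
      ∑ l ∈ Ico k (k + A + 1), (e l / qp q (k + A - l) * v q (k + b) l) * u q k l := by
  rw [sum_Ico_eq_sum_range, show k + A + 1 - k = A + 1 by omega]
  have hA := h.qp_ne A
  have hb := h.qp_ne (b + 2 * k)
  have e1 : Z * (qp q (k + A + (k + b)) * u q k (k + A) * u q k (k + b)) =
      (Z * G q (A + (b + 2 * k)) (A + 2 * k)) * (1 / (qp q A * qp q (b + 2 * k))) := by
    rw [u_of_le q (Nat.le_add_right k A), u_of_le q (Nat.le_add_right k b),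
      show A + (b + 2 * k) = (A + 2 * k) + b by ring, G_add,
      show k + A - k = A by omega, show k + b - k = b by omega,
      show k + A + (k + b) = A + 2 * k + b by ring, show k + A + k = A + 2 * k by ring,
      show k + b + k = b + 2 * k by ring]
    have h1 := h.qp_ne (A + 2 * k)
    have h2 := h.qp_ne b
    field_simp
  rw [e1, ← he, sum_mul]
  refine sum_congr rfl fun t ht => ?_
  have ht' : t ≤ A := by
    have := mem_range.1 ht
    omega
  obtain ⟨c, rfl⟩ : ∃ c, A = t + c := ⟨A - t, by omega⟩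
  rw [u_of_le q (Nat.le_add_right k t), G_add, show k + (t + c) - (k + t) = c by omega,
    show k + t - k = t by omega, show k + t + k = t + 2 * k by ring]
  have h1 := h.qp_ne t
  have h2 := h.qp_ne c
  have h3 := h.qp_ne (t + 2 * k)
  by_cases hbt : t ≤ b
  · obtain ⟨d, rfl⟩ : ∃ d, b = t + d := ⟨b - t, by omega⟩
    rw [v_of_le q (by omega), show t + d + 2 * k = (t + 2 * k) + d by ring, G_add,
      show k + (t + d) - (k + t) = d by omega]
    rw [show t + d + 2 * k = (t + 2 * k) + d by ring] at hb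
    have h4 := h.qp_ne d
    field_simp
  · rw [v_of_lt q (by omega), G_of_lt q (show b + 2 * k < t + 2 * k by omega)]
    ring

theorem Gen.keyV1 {q : F} (h : Gen q) {k x : ℕ} (y : ℕ) (hx : k ≤ x) :
    q ^ (k ^ 2) * (qp q (x + y) * u q k x * u q k y) =
      ∑ l ∈ Ico k (x + 1), (q ^ (l ^ 2) / qp q (x - l) * v q y l) * u q k l := by
  obtain ⟨A, rfl⟩ : ∃ A, x = k + A := ⟨x - k, by omega⟩
  by_cases hy : k ≤ y
  · obtain ⟨b, rfl⟩ : ∃ b, y = k + b := ⟨y - k, by omega⟩
    refine h.keyV k A b (fun l => q ^ (l ^ 2)) _ ?_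
    rw [← h.V1, mul_sum]
    refine sum_congr rfl fun t _ => ?_
    have : q ^ ((k + t) ^ 2) = q ^ (k ^ 2) * q ^ (t * (t + 2 * k)) := by
      rw [← pow_add]; congr 1; ring
    simp only [this]
    ring
  · rw [u_of_lt q (show y < k by omega)]
    rw [sum_eq_zero]
    · ring
    · intro l hl
      have := mem_Ico.1 hl
      rw [v_of_lt q (by omega)]; ring

theorem Gen.keyV2 {q : F} (h : Gen q) {k x : ℕ} (y : ℕ) (hx : k ≤ x) :
    qp q (x + y) * u q k x * u q k y =
      ∑ l ∈ Ico k (x + 1), (q ^ ((x - l) * (y - l)) / qp q (x - l) * v q y l) * u q k l := by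
  obtain ⟨A, rfl⟩ : ∃ A, x = k + A := ⟨x - k, by omega⟩
  by_cases hy : k ≤ y
  · obtain ⟨b, rfl⟩ : ∃ b, y = k + b := ⟨y - k, by omega⟩
    have := h.keyV k A b (fun l => q ^ ((k + A - l) * (k + b - l))) 1 ?_
    · rw [one_mul] at this
      exact this
    rw [one_mul, ← h.V2]
    refine sum_congr rfl fun t _ => ?_
    show G q A t * (q ^ ((k + A - (k + t)) * (k + b - (k + t))) * _) = _
    rw [show k + A - (k + t) = A - t by omega,
      show k + b - (k + t) = b + 2 * k - (t + 2 * k) by omega]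
  · rw [u_of_lt q (show y < k by omega)]
    rw [sum_eq_zero]
    · ring
    · intro l hl
      have := mem_Ico.1 hl
      rw [v_of_lt q (by omega)]; ring

theorem Gen.keyE {q : F} (h : Gen q) (k A : ℕ) (e : ℕ → F) (Z : F)
    (he : ∑ t ∈ range (A + 1), G q A t * (e (k + t) * (qp q (A + 2 * k) / qp q (t + 2 * k))) = Z) :
    Z * u q k (k + A) = ∑ l ∈ Ico k (k + A + 1), (e l / qp q (k + A - l)) * u q k l := by
  rw [sum_Ico_eq_sum_range, show k + A + 1 - k = A + 1 by omega, ← he, sum_mul]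
  refine sum_congr rfl fun t ht => ?_
  have ht' : t ≤ A := by
    have := mem_range.1 ht
    omega
  obtain ⟨c, rfl⟩ : ∃ c, A = t + c := ⟨A - t, by omega⟩
  rw [u_of_le q (Nat.le_add_right k t), G_add, u_of_le q (Nat.le_add_right k (t + c)),
    show k + (t + c) - (k + t) = c by omega,
    show k + t - k = t by omega, show k + t + k = t + 2 * k by ring,
    show k + (t + c) - k = t + c by omega, show k + (t + c) + k = t + c + 2 * k by ring]
  have h1 := h.qp_ne t
  have h2 := h.qp_ne c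
  have h3 := h.qp_ne (t + 2 * k)
  have h4 := h.qp_ne (t + c)
  have h5 := h.qp_ne (t + c + 2 * k)
  field_simp

theorem Gen.keyE1 {q : F} (h : Gen q) {k x : ℕ} (hx : k ≤ x) :
    q ^ (k ^ 2) * u q k x = ∑ l ∈ Ico k (x + 1), (q ^ (l ^ 2) / qp q (x - l)) * u q k l := by
  obtain ⟨A, rfl⟩ : ∃ A, x = k + A := ⟨x - k, by omega⟩
  refine h.keyE k A (fun l => q ^ (l ^ 2)) _ ?_
  have := h.E1 A (2 * k)
  calc _ = ∑ t ∈ range (A + 1), q ^ (k ^ 2) * (G q A t * (q ^ (t * (t + 2 * k)) *
        (qp q (A + 2 * k) / qp q (t + 2 * k)))) := by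
        refine sum_congr rfl fun t _ => ?_
        have : q ^ ((k + t) ^ 2) = q ^ (k ^ 2) * q ^ (t * (t + 2 * k)) := by
          rw [← pow_add]; congr 1; ring
        simp only [this]
        ring
    _ = q ^ (k ^ 2) := by rw [← mul_sum, this, mul_one]

theorem Gen.keyE2 {q : F} (h : Gen q) {k x : ℕ} (hx : k ≤ x) :
    q ^ (x ^ 2) * u q k x = q ^ (k ^ 2) *
      ∑ l ∈ Ico k (x + 1), ((-1) ^ (x - l) * q ^ ((x - l).choose 2) / qp q (x - l)) * u q k l := by
  obtain ⟨A, rfl⟩ : ∃ A, x = k + A := ⟨x - k, by omega⟩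
  have := h.keyE k A (fun l => (-1) ^ (k + A - l) * q ^ ((k + A - l).choose 2))
    (q ^ (A * (A + 2 * k))) ?_
  · rw [← this, ← mul_assoc, ← pow_add]
    congr 2; ring
  · rw [← h.E2 A (2 * k)]
    refine sum_congr rfl fun t _ => ?_
    show G q A t * ((-1) ^ (k + A - (k + t)) * q ^ ((k + A - (k + t)).choose 2) * _) = _
    rw [show k + A - (k + t) = A - t by omega]

theorem swap (q : F) (a x : ℕ) (W X κ : ℕ → F)
    (hX : ∀ k, a ≤ k → k ≤ x → X k = ∑ l ∈ Ico k (x + 1), κ l * u q k l) :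
    ∑ k ∈ Ico a (x + 1), W k * X k =
      ∑ l ∈ Ico a (x + 1), κ l * ∑ k ∈ Ico a (l + 1), W k * u q k l := by
  have h1 : ∀ k ∈ Ico a (x + 1), W k * X k = ∑ l ∈ Ico k (x + 1), κ l * (W k * u q k l) := by
    intro k hk
    have := mem_Ico.1 hk
    rw [hX k this.1 (by omega), mul_sum]
    exact sum_congr rfl fun l _ => by ring
  rw [sum_congr rfl h1]
  have h2 : ∀ l ∈ Ico a (x + 1), κ l * ∑ k ∈ Ico a (l + 1), W k * u q k l =
      ∑ k ∈ Ico a (l + 1), κ l * (W k * u q k l) := fun l _ => mul_sum _ _ _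
  rw [sum_congr rfl h2]
  refine sum_comm' fun k l => ?_
  simp only [mem_Ico]
  omega

/-- chain product -/
def ch (q : F) : ℕ → List ℕ → F
  | _, [] => 1
  | x, y :: ys => qp q (x + y) * ch q y ys

/-- last entry -/
def lst : ℕ → List ℕ → ℕ
  | x, [] => x
  | _, y :: ys => lst y ys

/-- product of the `u k` -/
noncomputable def U (q : F) (k : ℕ) : List ℕ → F
  | [] => 1
  | y :: ys => u q k y * U q k ys

/-- the normalised sum -/
noncomputable def T (q : F) (a : ℕ) (W : ℕ → F) (x : ℕ) (ns : List ℕ) : F :=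
  (1 - q) * qp q (x - a) * (qp q (lst x ns + a - 1) * ch q x ns) *
    ∑ k ∈ Ico a (x + 1), W k * (u q k x * U q k ns)

theorem Gen.G_mem {q : F} (h : Gen q) (R : Subsemiring F) (hq : q ∈ R) (N : ℕ) :
    ∀ k, G q N k ∈ R := by
  induction N with
  | zero =>
    intro k
    rcases Nat.eq_zero_or_pos k with rfl | hk
    · rw [h.G_zero]; exact R.one_mem
    · rw [G_of_lt q hk]; exact R.zero_mem
  | succ N ih =>
    intro k
    rcases k with _ | k
    · rw [h.G_zero]; exact R.one_mem
    · rw [h.pascal1]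
      exact R.add_mem (ih k) (R.mul_mem (R.pow_mem hq _) (ih (k + 1)))

theorem Gen.coef {q : F} (h : Gen q) (R : Subsemiring F) (hq : q ∈ R) (a l y : ℕ) (ns : List ℕ)
    (hl : l ≤ y) (h1 : 1 ≤ l + a) :
    ∃ c ∈ R, qp q (lst y ns + a - 1) * ch q y ns =
      c * qp q (y - l) * (qp q (lst l ns + a - 1) * ch q l ns) := by
  obtain ⟨d, rfl⟩ : ∃ d, y = l + d := ⟨y - l, by omega⟩
  cases ns with
  | nil =>
    refine ⟨G q (d + (l + a - 1)) d, h.G_mem R hq _ _, ?_⟩
    rw [G_add]
    simp only [lst, ch, mul_one]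
    rw [show l + d - l = d by omega, show l + d + a - 1 = d + (l + a - 1) by omega]
    have := h.qp_ne d
    have := h.qp_ne (l + a - 1)
    field_simp
  | cons z zs =>
    refine ⟨G q (d + (l + z)) d, h.G_mem R hq _ _, ?_⟩
    rw [G_add]
    simp only [lst, ch]
    rw [show l + d - l = d by omega, show l + d + z = d + (l + z) by ring]
    have := h.qp_ne d
    have := h.qp_ne (l + z)
    field_simp

theorem Gen.step {q : F} (h : Gen q) (R : Subsemiring F) (hq : q ∈ R) (a x y : ℕ)
    (ns : List ℕ) (W W' E : ℕ → F) (hE : ∀ l, E l ∈ R) (hW0 : W' 0 = 0)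
    (hX : ∀ k, k ≤ x → W k * (qp q (x + y) * u q k x * u q k y) =
      W' k * ∑ l ∈ Ico k (x + 1), (E l / qp q (x - l) * v q y l) * u q k l)
    (hT : ∀ l, a ≤ l → l ≤ x → l ≤ y → T q a W' l ns ∈ R) :
    T q a W x (y :: ns) ∈ R := by
  have e1 : T q a W x (y :: ns) = ∑ l ∈ Ico a (x + 1), (1 - q) * qp q (x - a) *
      (qp q (lst y ns + a - 1) * ch q y ns) * ((E l / qp q (x - l) * v q y l) *
        ∑ k ∈ Ico a (l + 1), (W' k * U q k ns) * u q k l) := by
    rw [← mul_sum, ← swap q a x (fun k => W' k * U q k ns)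
      (fun k => ∑ l ∈ Ico k (x + 1), (E l / qp q (x - l) * v q y l) * u q k l)
      (fun l => E l / qp q (x - l) * v q y l) (fun k _ _ => rfl)]
    unfold T
    simp only [lst, ch]
    rw [mul_sum, mul_sum]
    refine sum_congr rfl fun k hk => ?_
    have hk' := mem_Ico.1 hk
    have := hX k (by omega)
    simp only [U]
    linear_combination (1 - q) * qp q (x - a) * (qp q (lst y ns + a - 1) * ch q y ns) *
      U q k ns * this
  rw [e1]
  refine R.sum_mem fun l hl => ?_
  have hl' := mem_Ico.1 hl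
  by_cases hly : l ≤ y
  · by_cases h0 : l + a = 0
    · have hl0 : l = 0 := by omega
      have ha0 : a = 0 := by omega
      subst hl0; subst ha0
      rw [Nat.Ico_succ_singleton, sum_singleton, hW0]
      simp only [zero_mul, mul_zero]
      exact R.zero_mem
    · obtain ⟨c, hc, hce⟩ := h.coef R hq a l y ns hly (by omega)
      have hT' := hT l hl'.1 (by omega) hly
      have e2 : (1 - q) * qp q (x - a) *
          (qp q (lst y ns + a - 1) * ch q y ns) * ((E l / qp q (x - l) * v q y l) *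
          ∑ k ∈ Ico a (l + 1), (W' k * U q k ns) * u q k l) =
          E l * G q (x - a) (l - a) * c * T q a W' l ns := by
        have e3 : ∑ k ∈ Ico a (l + 1), (W' k * U q k ns) * u q k l =
            ∑ k ∈ Ico a (l + 1), W' k * (u q k l * U q k ns) :=
          sum_congr rfl fun k _ => by ring
        rw [e3, hce, v_of_le q hly]
        unfold T
        rw [G_of_le q (show l - a ≤ x - a by omega), show x - a - (l - a) = x - l by omega]
        have h1 := h.qp_ne (x - l)
        have h2 := h.qp_ne (y - l)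
        have h3 := h.qp_ne (l - a)
        field_simp
      rw [e2]
      exact R.mul_mem (R.mul_mem (R.mul_mem (hE l) (h.G_mem R hq _ _)) hc) hT'
  · rw [v_of_lt q (by omega)]
    simp only [mul_zero, zero_mul]
    exact R.zero_mem

end Pool.Agent.Q95.CQ
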